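import Mathlib.Algebra.Group.End
import Mathlib.Algebra.Group.Subgroup.Lattice
import Mathlib.Tactic.FinCases
import Mathlib.Data.Fin.VecNotation
import Mathlib.Data.ENat.Lattice
import Mathlib.Data.Real.Basic

/-! Definitions: the Grigorchuk groups `G_w` and the Folner function. -/

namespace Pool.Agent.MP_56119d_al

/-- The root swap `a (x v) = (1 - x) v` on finite binary words (`false` is 0, `true` is 1). -/
def swapFun : List Bool → List Bool
  | [] => []
  | x :: v => (!x) :: v

/-- `omega j i` is the `i`-th entry of the triple `ω_j`: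
`ω_0 = (a, a, 1)`, `ω_1 = (a, 1, a)`, `ω_2 = (1, a, a)`. -/
def omega : Fin 3 → Fin 3 → List Bool → List Bool :=
  ![![swapFun, swapFun, id], ![swapFun, id, swapFun], ![id, swapFun, swapFun]]

/-- `genFun 0 w`, `genFun 1 w`, `genFun 2 w` are `b_w`, `c_w`, `d_w`, for `w = w 0, w 1, ...`. -/
def genFun (i : Fin 3) : (ℕ → Fin 3) → List Bool → List Bool
  | _, [] => []
  | w, false :: v => false :: omega (w 0) i v
  | w, true :: v => true :: genFun i (fun n => w (n + 1)) v

theorem swapFun_involutive : Function.Involutive swapFun := by
  rintro (_ | ⟨x, v⟩) <;> simp [swapFun]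

theorem omega_involutive (j i : Fin 3) : Function.Involutive (omega j i) := by
  fin_cases j <;> fin_cases i <;> first | exact swapFun_involutive | exact fun _ => rfl

theorem genFun_involutive (i : Fin 3) (w : ℕ → Fin 3) : Function.Involutive (genFun i w) := by
  intro v
  induction v generalizing w with
  | nil => rfl
  | cons x v ih =>
    cases x
    · simp only [genFun, omega_involutive _ _ v]
    · simp only [genFun, ih]

/-- The generator `a` as a permutation of the vertices of the binary tree. -/
def genA : Equiv.Perm (List Bool) := swapFun_involutive.toPerm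

/-- The generators `b_w`, `c_w`, `d_w` (`i = 0, 1, 2`) as permutations of the binary tree. -/
def gen (i : Fin 3) (w : ℕ → Fin 3) : Equiv.Perm (List Bool) := (genFun_involutive i w).toPerm

/-- The Grigorchuk group `G_w`, generated by `a, b_w, c_w, d_w`. -/
def grigorchuk (w : ℕ → Fin 3) : Subgroup (Equiv.Perm (List Bool)) :=
  Subgroup.closure {genA, gen 0 w, gen 1 w, gen 2 w}

open Classical in
/-- The inner boundary: the `x ∈ F` with `x s ∉ F` for some `s ∈ S`. -/
noncomputable def boundary {G : Type*} [Group G] (S F : Finset G) : Finset G :=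
  F.filter fun x => ∃ s ∈ S, x * s ∉ F

/-- The Folner function: the least size of a finite nonempty `F` with `|∂F| ≤ |F| / n`. -/
noncomputable def folner {G : Type*} [Group G] (S : Finset G) (n : ℕ) : ℕ∞ :=
  ⨅ F ∈ {F : Finset G | F.Nonempty ∧ ((boundary S F).card : ℝ) ≤ (F.card : ℝ) / n}, (F.card : ℕ∞)

end Pool.Agent.MP_56119d_al
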