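import Mathlib.Algebra.BigOperators.Field
import Mathlib.Topology.Sheaves.Presheaf
import Mathlib.Tactic.Monotonicity.Lemmas
import Mathlib.Algebra.Order.Ring.Star
import Mathlib.Analysis.SpecialFunctions.Log.Basic
import Mathlib.Algebra.Order.Chebyshev
import Mathlib.Algebra.Order.Star.Real
import Mathlib.Combinatorics.SimpleGraph.Basic
import Mathlib.Data.Finset.Slice
import Mathlib.Geometry.Group.Growth.LinearLowerBound
import Mathlib.RingTheory.PiTensorProduct
import Mathlib.Tactic.Algebra.Basic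
import Pool.Agent.MP_56119d_al.Defs

-- ======== part 0: formerly Pool.Agent.MP_56119d_al.Tree
section MrgPart0

/-! Wreath recursion for the Grigorchuk groups. -/

namespace Pool.Agent.MP_56119d_al

abbrev PT := Equiv.Perm (List Bool)

def pairFun (f g : PT) : List Bool → List Bool
  | [] => []
  | false :: v => false :: f v
  | true :: v => true :: g v

/-- the automorphism with sections `f` at `0` and `g` at `1`, fixing the first level -/
def pair (f g : PT) : PT where
  toFun := pairFun f g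
  invFun := pairFun f⁻¹ g⁻¹
  left_inv := by rintro (_ | ⟨_ | _, v⟩) <;> simp [pairFun]
  right_inv := by rintro (_ | ⟨_ | _, v⟩) <;> simp [pairFun]

@[simp] lemma pair_nil (f g : PT) : pair f g [] = [] := rfl
@[simp] lemma pair_false (f g : PT) (v : List Bool) : pair f g (false :: v) = false :: f v := rfl
@[simp] lemma pair_true (f g : PT) (v : List Bool) : pair f g (true :: v) = true :: g v := rfl
@[simp] lemma genA_nil : genA [] = [] := rfl
@[simp] lemma genA_cons (x : Bool) (v : List Bool) : genA (x :: v) = (!x) :: v := rfl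

lemma pair_mul (f g f' g' : PT) : pair f g * pair f' g' = pair (f * f') (g * g') := by
  ext1 v
  rcases v with _ | ⟨_ | _, v⟩ <;> simp

lemma pair_one : pair 1 1 = 1 := by
  ext1 v
  rcases v with _ | ⟨_ | _, v⟩ <;> simp

lemma pair_inv (f g : PT) : (pair f g)⁻¹ = pair f⁻¹ g⁻¹ := by
  rw [inv_eq_iff_mul_eq_one, pair_mul]
  simp [pair_one]

lemma pair_inj {f g f' g' : PT} (h : pair f g = pair f' g') : f = f' ∧ g = g' := by
  constructor
  · ext1 v
    simpa using congrArg (fun p : PT => p (false :: v)) h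
  · ext1 v
    simpa using congrArg (fun p : PT => p (true :: v)) h

lemma genA_mul_pair (f g : PT) : genA * pair f g = pair g f * genA := by
  ext1 v
  rcases v with _ | ⟨_ | _, v⟩ <;> simp

lemma genA_mul_self : genA * genA = 1 := by
  ext1 v
  rcases v with _ | ⟨x, v⟩ <;> simp

lemma genA_inv : genA⁻¹ = genA := inv_eq_of_mul_eq_one_right genA_mul_self

/-- the commutator of the squares, a law of every dihedral group -/
def law {G : Type*} [Group G] (g h : G) : G := g ^ 2 * h ^ 2 * (g ^ 2)⁻¹ * (h ^ 2)⁻¹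

lemma law_swap {G : Type*} [Group G] (g h : G) : law h g = (law g h)⁻¹ := by
  simp only [law, mul_inv_rev, inv_inv, mul_assoc]

lemma law_self {G : Type*} [Group G] (g : G) : law g g = 1 := by
  simp [law]

lemma law_pair (f g f' g' : PT) : law (pair f g) (pair f' g') = pair (law f f') (law g g') := by
  simp only [law, sq, pair_mul, pair_inv]

/-- `pair` as a homomorphism -/
def pairHom : PT × PT →* PT where
  toFun p := pair p.1 p.2
  map_one' := pair_one
  map_mul' _ _ := (pair_mul _ _ _ _).symm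

lemma pairHom_injective : Function.Injective pairHom := fun _ _ h =>
  Prod.ext (pair_inj h).1 (pair_inj h).2

/-- the shift -/
def sh (k : ℕ) (w : ℕ → Fin 3) : ℕ → Fin 3 := fun n => w (n + k)

/-- the entry of letter `i` at symbol `j` -/
def ent (j i : Fin 3) : PT := if i = Fin.rev j then 1 else genA

lemma gen_eq (i : Fin 3) (w : ℕ → Fin 3) : gen i w = pair (ent (w 0) i) (gen i (sh 1 w)) := by
  ext1 v
  rcases v with _ | ⟨_ | _, v⟩
  · rfl
  · show false :: omega (w 0) i v = false :: ent (w 0) i v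
    congr 1
    generalize w 0 = j
    fin_cases j <;> fin_cases i <;> rfl
  · rfl

lemma gen_mul_self (i : Fin 3) (w : ℕ → Fin 3) : gen i w * gen i w = 1 := by
  ext1 v
  exact genFun_involutive i w v

lemma gen_inv (i : Fin 3) (w : ℕ → Fin 3) : (gen i w)⁻¹ = gen i w :=
  inv_eq_of_mul_eq_one_right (gen_mul_self i w)

lemma ent_mul (s i j k : Fin 3) (hij : i ≠ j) (hik : i ≠ k) (hjk : j ≠ k) :
    ent s i * ent s j = ent s k := by
  unfold ent
  fin_cases s <;> fin_cases i <;> fin_cases j <;> fin_cases k <;>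
    simp_all [genA_mul_self, Fin.rev]

lemma gen_mul_gen (i j k : Fin 3) (hij : i ≠ j) (hik : i ≠ k) (hjk : j ≠ k) (w : ℕ → Fin 3) :
    gen i w * gen j w = gen k w := by
  ext1 v
  induction v generalizing w with
  | nil => rfl
  | cons x v ih =>
    rw [gen_eq i, gen_eq j, gen_eq k, pair_mul, ent_mul _ i j k hij hik hjk]
    cases x
    · rfl
    · simp only [pair_true, ih]

lemma genA_mem (w : ℕ → Fin 3) : genA ∈ grigorchuk w := Subgroup.subset_closure (by simp)

lemma gen_mem (i : Fin 3) (w : ℕ → Fin 3) : gen i w ∈ grigorchuk w :=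
  Subgroup.subset_closure (by fin_cases i <;> simp)

lemma exists_ne_ne (x z : Fin 3) : ∃ y : Fin 3, y ≠ x ∧ y ≠ z := by
  revert x z; decide

lemma lift_mem (w : ℕ → Fin 3) (g : PT) (hg : g ∈ grigorchuk (sh 1 w)) :
    ∃ h, pair h g ∈ grigorchuk w := by
  induction hg using Subgroup.closure_induction with
  | mem g hg =>
    have h0 : ∀ i, ∃ h, pair h (gen i (sh 1 w)) ∈ grigorchuk w := fun i =>
      ⟨_, gen_eq i w ▸ gen_mem i w⟩
    rcases hg with rfl | rfl | rfl | rfl
    · obtain ⟨y, hy, -⟩ := exists_ne_ne (Fin.rev (w 0)) 0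
      refine ⟨gen y (sh 1 w), ?_⟩
      have : pair (gen y (sh 1 w)) genA = genA * gen y w * genA := by
        rw [gen_eq y w, genA_mul_pair, mul_assoc, genA_mul_self, mul_one, ent, if_neg hy]
      rw [this]
      exact mul_mem (mul_mem (genA_mem w) (gen_mem y w)) (genA_mem w)
    all_goals exact h0 _
  | one => exact ⟨1, by rw [pair_one]; exact one_mem _⟩
  | mul g g' _ _ h h' =>
    obtain ⟨f, hf⟩ := h
    obtain ⟨f', hf'⟩ := h'
    exact ⟨_, pair_mul _ _ _ _ ▸ mul_mem hf hf'⟩
  | inv g _ h =>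
    obtain ⟨f, hf⟩ := h
    exact ⟨_, pair_inv _ _ ▸ inv_mem hf⟩

lemma level_transitive (v : List Bool) (w : ℕ → Fin 3) :
    ∃ g ∈ grigorchuk w, g (List.replicate v.length true) = v := by
  induction v generalizing w with
  | nil => exact ⟨1, one_mem _, rfl⟩
  | cons x v ih =>
    obtain ⟨g, hg, e⟩ := ih (sh 1 w)
    obtain ⟨h, hh⟩ := lift_mem w g hg
    cases x
    · exact ⟨genA * pair h g, mul_mem (genA_mem w) hh, by simp [List.replicate_succ, e]⟩
    · exact ⟨pair h g, hh, by simp [List.replicate_succ, e]⟩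

lemma grigorchuk_infinite (w : ℕ → Fin 3) : ((grigorchuk w : Subgroup PT) : Set PT).Infinite := by
  intro hfin
  have : Fintype (grigorchuk w) := hfin.fintype
  set N := Fintype.card (grigorchuk w)
  have h : ∀ v : List.Vector Bool N, ∃ g : grigorchuk w,
      (g : PT) (List.replicate N true) = v.1 := fun v => by
    obtain ⟨g, hg, e⟩ := level_transitive v.1 w
    rw [v.2] at e
    exact ⟨⟨g, hg⟩, e⟩
  choose c hc using h
  have hinj : Function.Injective c := fun v v' e =>
    Subtype.ext (by rw [← hc v, ← hc v', e])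
  have := Fintype.card_le_of_injective c hinj
  rw [card_vector, Fintype.card_bool] at this
  exact absurd Nat.lt_two_pow_self (not_lt.2 this)

/-- one step of an alternating word -/
def st (φ : Bool) (y : Fin 3) (w : ℕ → Fin 3) : PT :=
  if φ then gen y w * genA else genA * gen y w

/-- alternating words of `n` steps avoiding the letter `x` -/
inductive Alt (x : Fin 3) (w : ℕ → Fin 3) (φ : Bool) : ℕ → PT → Prop
  | nil : Alt x w φ 0 1
  | cons {n : ℕ} {g : PT} (y : Fin 3) : y ≠ x → Alt x w φ n g → Alt x w φ (n + 1) (st φ y w * g)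

/-- the child with form `true` gets `gT`, the other one gets `gF` -/
def pairF (φ : Bool) (gT gF : PT) : PT := if φ then pair gF gT else pair gT gF

lemma pairF_mul (φ : Bool) (f g f' g' : PT) :
    pairF φ f g * pairF φ f' g' = pairF φ (f * f') (g * g') := by
  cases φ <;> simp [pairF, pair_mul]

lemma pairF_one (φ : Bool) : pairF φ 1 1 = 1 := by
  cases φ <;> simp [pairF, pair_one]

lemma st_mul_st (φ : Bool) (y y' : Fin 3) (w : ℕ → Fin 3) :
    st φ y w * st φ y' w
      = pairF φ (gen y (sh 1 w) * ent (w 0) y') (ent (w 0) y * gen y' (sh 1 w)) := by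
  cases φ
  · simp only [st, pairF, Bool.false_eq_true, if_false]
    rw [gen_eq y w, gen_eq y' w, genA_mul_pair, mul_assoc, ← mul_assoc genA, genA_mul_self,
      one_mul, pair_mul]
  · simp only [st, pairF, if_true]
    rw [gen_eq y w, gen_eq y' w, mul_assoc, ← mul_assoc genA, genA_mul_pair, mul_assoc,
      genA_mul_self, mul_one, pair_mul]

lemma Alt.two {x : Fin 3} {w : ℕ → Fin 3} {φ : Bool} {n : ℕ} {g : PT} (y y' : Fin 3)
    (hy : y ≠ x) (hy' : y' ≠ x) (h : Alt x w φ (2 * n) g) :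
    Alt x w φ (2 * (n + 1))
      (pairF φ (gen y (sh 1 w) * ent (w 0) y') (ent (w 0) y * gen y' (sh 1 w)) * g) := by
  rw [← st_mul_st, mul_assoc]
  exact Alt.cons y hy (Alt.cons y' hy' h)

lemma lift_branch {x : Fin 3} {w : ℕ → Fin 3} (hx : Fin.rev (w 0) = x) (φ : Bool) {n : ℕ}
    {gT gF : PT} (hT : Alt x (sh 1 w) true n gT) (hF : Alt x (sh 1 w) false n gF) :
    Alt x w φ (2 * n) (pairF φ gT gF) := by
  induction hT generalizing gF with
  | nil =>
    cases hF
    rw [pairF_one]
    exact Alt.nil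
  | cons y hy _ ih =>
    cases hF with
    | cons y' hy' hF =>
      have := Alt.two y y' hy hy' (ih hF)
      rw [pairF_mul, ent, ent, if_neg (hx ▸ hy'), if_neg (hx ▸ hy)] at this
      simpa [st] using this

/-- the dihedral group receiving the unwanted sections -/
def dih (y : Fin 3) (w : ℕ → Fin 3) : Subgroup PT := Subgroup.closure {genA, gen y w}

lemma ent_mem_dih (j i y : Fin 3) (w : ℕ → Fin 3) : ent j i ∈ dih y w := by
  unfold ent
  split_ifs
  · exact one_mem _
  · exact Subgroup.subset_closure (by simp)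

lemma gen_mem_dih (y : Fin 3) (w : ℕ → Fin 3) : gen y w ∈ dih y w :=
  Subgroup.subset_closure (by simp)

lemma lift_T {x z : Fin 3} {w : ℕ → Fin 3} (hz : z ≠ x) (hz' : z ≠ Fin.rev (w 0)) (φ : Bool)
    {n : ℕ} {gT : PT} (hT : Alt x (sh 1 w) true n gT) :
    ∃ γ ∈ dih z (sh 1 w), Alt x w φ (2 * n) (pairF φ gT γ) := by
  induction hT with
  | nil => exact ⟨1, one_mem _, by rw [pairF_one]; exact Alt.nil⟩
  | cons y hy _ ih =>
    obtain ⟨γ, hγ, h⟩ := ih
    have := Alt.two y z hy hz h
    rw [pairF_mul, ent, if_neg hz'] at this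
    exact ⟨_, mul_mem (mul_mem (ent_mem_dih _ _ _ _) (gen_mem_dih _ _)) hγ,
      by simpa [st] using this⟩

lemma lift_F {x z : Fin 3} {w : ℕ → Fin 3} (hz : z ≠ x) (hz' : z ≠ Fin.rev (w 0)) (φ : Bool)
    {n : ℕ} {gF : PT} (hF : Alt x (sh 1 w) false n gF) :
    ∃ γ ∈ dih z (sh 1 w), Alt x w φ (2 * n) (pairF φ γ gF) := by
  induction hF with
  | nil => exact ⟨1, one_mem _, by rw [pairF_one]; exact Alt.nil⟩
  | cons y hy _ ih =>
    obtain ⟨γ, hγ, h⟩ := ih
    have := Alt.two z y hz hy h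
    rw [pairF_mul, ent.eq_1 (w 0) z, if_neg hz'] at this
    exact ⟨_, mul_mem (mul_mem (gen_mem_dih _ _) (ent_mem_dih _ _ _ _)) hγ,
      by simpa [st] using this⟩

lemma dihedral_form {G : Type*} [Group G] (a y : G) (ha : a * a = 1) (hy : y * y = 1) (g : G)
    (hg : g ∈ Subgroup.closure ({a, y} : Set G)) :
    ∃ n : ℤ, g = (a * y) ^ n ∨ g = (a * y) ^ n * a := by
  have ha' : a⁻¹ = a := inv_eq_of_mul_eq_one_right ha
  have hy' : y⁻¹ = y := inv_eq_of_mul_eq_one_right hy
  have hc : ∀ n : ℤ, a * (a * y) ^ n = (a * y) ^ (-n) * a := by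
    intro n
    have h1 : a * (a * y) * a⁻¹ = (a * y)⁻¹ := by
      rw [mul_inv_rev, ha', hy', ← mul_assoc, ha, one_mul]
    have h2 := conj_zpow (i := n) (a := a) (b := a * y)
    rw [h1, inv_zpow'] at h2
    rw [h2]
    simp
  induction hg using Subgroup.closure_induction with
  | mem g hg =>
    rcases hg with rfl | rfl
    · exact ⟨0, Or.inr (by simp)⟩
    · refine ⟨-1, Or.inr ?_⟩
      rw [zpow_neg_one, mul_inv_rev, ha', hy', mul_assoc, ha, mul_one]
  | one => exact ⟨0, Or.inl (by simp)⟩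
  | mul g g' _ _ h h' =>
    obtain ⟨n, rfl | rfl⟩ := h <;> obtain ⟨m, rfl | rfl⟩ := h'
    · exact ⟨n + m, Or.inl (zpow_add _ _ _).symm⟩
    · exact ⟨n + m, Or.inr (by rw [zpow_add, mul_assoc])⟩
    · exact ⟨n + -m, Or.inr (by rw [zpow_add, mul_assoc, hc, mul_assoc])⟩
    · refine ⟨n + -m, Or.inl ?_⟩
      rw [zpow_add, mul_assoc, ← mul_assoc a, hc, mul_assoc, ha, mul_one]
  | inv g _ h =>
    obtain ⟨n, rfl | rfl⟩ := h
    · exact ⟨-n, Or.inl (zpow_neg _ _).symm⟩
    · exact ⟨n, Or.inr (by rw [mul_inv_rev, ha', ← zpow_neg, hc, neg_neg])⟩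

lemma dihedral_law {G : Type*} [Group G] (a y : G) (ha : a * a = 1) (hy : y * y = 1) (g h : G)
    (hg : g ∈ Subgroup.closure ({a, y} : Set G)) (hh : h ∈ Subgroup.closure ({a, y} : Set G)) :
    law g h = 1 := by
  have key : ∀ g ∈ Subgroup.closure ({a, y} : Set G), ∃ n : ℤ, g ^ 2 = (a * y) ^ n := by
    intro g hg
    obtain ⟨n, h1 | h1⟩ := dihedral_form a y ha hy g hg
    · exact ⟨n + n, by rw [h1, sq, zpow_add]⟩
    · refine ⟨0, ?_⟩
      have ha' : a⁻¹ = a := inv_eq_of_mul_eq_one_right ha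
      have hy' : y⁻¹ = y := inv_eq_of_mul_eq_one_right hy
      have h2 : a * (a * y) * a⁻¹ = (a * y)⁻¹ := by
        rw [mul_inv_rev, ha', hy', ← mul_assoc, ha, one_mul]
      have h3 := conj_zpow (i := n) (a := a) (b := a * y)
      rw [h2, ha', inv_zpow] at h3
      rw [h1, sq, zpow_zero, mul_assoc, ← mul_assoc a, ← h3, mul_inv_cancel]
  obtain ⟨n, hn⟩ := key g hg
  obtain ⟨m, hm⟩ := key h hh
  rw [law, hn, hm, (Commute.zpow_zpow_self (a * y) n m).eq]
  simp

lemma dih_law {y : Fin 3} {w : ℕ → Fin 3} {g h : PT} (hg : g ∈ dih y w) (hh : h ∈ dih y w) :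
    law g h = 1 :=
  dihedral_law _ _ genA_mul_self (gen_mul_self y w) g h hg hh

end Pool.Agent.MP_56119d_al

end MrgPart0

-- ======== part 1: formerly Pool.Agent.MP_56119d_al.Lift
section MrgPart1

/-! Simultaneous lifting of words to a block of cells, and the infinite section group. -/

namespace Pool.Agent.MP_56119d_al

/-- the automorphism with prescribed sections on level `k`, fixing that level -/
def phi : (k : ℕ) → ((Fin k → Bool) → PT) → PT
  | 0, f => f Fin.elim0
  | k + 1, f => pair (phi k fun u => f (Fin.cons false u)) (phi k fun u => f (Fin.cons true u))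

lemma phi_one : ∀ k : ℕ, phi k (fun _ => 1) = 1
  | 0 => rfl
  | k + 1 => by simp only [phi, phi_one k, pair_one]

lemma phi_mul : ∀ (k : ℕ) (f g : (Fin k → Bool) → PT),
    phi k (fun u => f u * g u) = phi k f * phi k g
  | 0, _, _ => rfl
  | k + 1, f, g => by simp only [phi, phi_mul k, pair_mul]

lemma phi_inj : ∀ (k : ℕ) (f g : (Fin k → Bool) → PT), phi k f = phi k g → f = g
  | 0, f, g, h => by
    funext u
    rw [Subsingleton.elim u Fin.elim0]
    exact h
  | k + 1, f, g, h => by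
    obtain ⟨h0, h1⟩ := pair_inj h
    have e0 := phi_inj k _ _ h0
    have e1 := phi_inj k _ _ h1
    funext u
    rw [← Fin.cons_self_tail u]
    cases u 0
    · exact congrFun e0 _
    · exact congrFun e1 _

def phiHom (k : ℕ) : ((Fin k → Bool) → PT) →* PT where
  toFun := phi k
  map_one' := phi_one k
  map_mul' := phi_mul k

lemma phi_succ (k : ℕ) (φ : Bool) (f : (Fin (k + 1) → Bool) → PT) :
    phi (k + 1) f
      = pairF φ (phi k fun u => f (Fin.cons φ u)) (phi k fun u => f (Fin.cons (!φ) u)) := by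
  cases φ <;> rfl

lemma law_pairF (φ : Bool) (f g f' g' : PT) :
    law (pairF φ f g) (pairF φ f' g') = pairF φ (law f f') (law g g') := by
  cases φ <;> simp [pairF, law_pair]

/-- `u` agrees with the pattern `ε` on the levels where `x` is not killed -/
def InBlock (x : Fin 3) (w : ℕ → Fin 3) {k : ℕ} (ε u : Fin k → Bool) : Prop :=
  ∀ j : Fin k, Fin.rev (w j) ≠ x → u j = ε j

lemma inBlock_cons (x : Fin 3) (w : ℕ → Fin 3) {k : ℕ} (ε : Fin (k + 1) → Bool) (c : Bool)
    (u : Fin k → Bool) : InBlock x w ε (Fin.cons c u)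
      ↔ (Fin.rev (w 0) ≠ x → c = ε 0) ∧ InBlock x (sh 1 w) (Fin.tail ε) u := by
  unfold InBlock
  rw [Fin.forall_fin_succ]
  rfl

lemma sh_zero (w : ℕ → Fin 3) : sh 0 w = w := rfl

lemma sh_sh (k : ℕ) (w : ℕ → Fin 3) : sh k (sh 1 w) = sh (k + 1) w := rfl

open Classical in
theorem lift_block (x : Fin 3) (m : ℕ) : ∀ (k : ℕ) (w : ℕ → Fin 3) (φ : Bool),
    ∃ form : (Fin k → Bool) → Bool, ∀ (ε : Fin k → Bool) (s s' : (Fin k → Bool) → PT),
      (∀ u, Alt x (sh k w) (form u) m (s u)) → (∀ u, Alt x (sh k w) (form u) m (s' u)) →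
      ∃ T T', Alt x w φ (2 ^ k * m) T ∧ Alt x w φ (2 ^ k * m) T' ∧
        law T T' = phi k fun u => if InBlock x w ε u then law (s u) (s' u) else 1
  | 0, w, φ => by
    refine ⟨fun _ => φ, fun ε s s' hs hs' => ⟨s Fin.elim0, s' Fin.elim0, ?_, ?_, ?_⟩⟩
    · simpa [sh_zero] using hs Fin.elim0
    · simpa [sh_zero] using hs' Fin.elim0
    · show _ = if _ then _ else _
      rw [if_pos (show InBlock x w ε Fin.elim0 from fun j => j.elim0)]
  | k + 1, w, φ => by
    choose form hform using lift_block x m k (sh 1 w)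
    refine ⟨fun u => form (u 0 == φ) (Fin.tail u), fun ε s s' hs hs' => ?_⟩
    obtain ⟨A, A', hA, hA', eA⟩ := hform true (Fin.tail ε) (fun u => s (Fin.cons φ u))
      (fun u => s' (Fin.cons φ u)) (fun u => by simpa [sh_sh] using hs (Fin.cons φ u))
      (fun u => by simpa [sh_sh] using hs' (Fin.cons φ u))
    obtain ⟨B, B', hB, hB', eB⟩ := hform false (Fin.tail ε) (fun u => s (Fin.cons (!φ) u))
      (fun u => s' (Fin.cons (!φ) u)) (fun u => by simpa [sh_sh] using hs (Fin.cons (!φ) u))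
      (fun u => by simpa [sh_sh] using hs' (Fin.cons (!φ) u))
    have e2 : 2 ^ (k + 1) * m = 2 * (2 ^ k * m) := by ring
    rw [e2, phi_succ k φ]
    simp only [inBlock_cons]
    by_cases hx : Fin.rev (w 0) = x
    · refine ⟨_, _, lift_branch hx φ hA hB, lift_branch hx φ hA' hB', ?_⟩
      rw [law_pairF, eA, eB]
      simp [hx]
    · obtain ⟨z, hz, hz'⟩ := exists_ne_ne x (Fin.rev (w 0))
      by_cases hε : ε 0 = φ
      · obtain ⟨γ, hγ, h⟩ := lift_T hz hz' φ hA
        obtain ⟨γ', hγ', h'⟩ := lift_T hz hz' φ hA'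
        refine ⟨_, _, h, h', ?_⟩
        rw [law_pairF, eA, dih_law hγ hγ']
        simp [hx, hε, phi_one]
      · have hε' : ε 0 = !φ := by revert hε; cases ε 0 <;> cases φ <;> simp
        obtain ⟨γ, hγ, h⟩ := lift_F hz hz' φ hB
        obtain ⟨γ', hγ', h'⟩ := lift_F hz hz' φ hB'
        refine ⟨_, _, h, h', ?_⟩
        rw [law_pairF, eB, dih_law hγ hγ']
        simp [hx, hε', phi_one]

lemma infinite_of_sections {G H G' : Type*} [Group G] [Group H] [Group G'] (Ψ : H →* G)
    (hΨ : Function.Injective Ψ) (π : H →* G') (h₁ h₂ : H) (L : Subgroup G) (m₁ : Ψ h₁ ∈ L)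
    (m₂ : Ψ h₂ ∈ L)
    (hinf : ((Subgroup.closure {π h₁, π h₂} : Subgroup G') : Set G').Infinite) :
    (L : Set G).Infinite := by
  intro hfin
  apply hinf
  have h1 : ((L.comap Ψ : Subgroup H) : Set H).Finite :=
    Set.Finite.preimage (f := Ψ) (s := (L : Set G)) hΨ.injOn hfin
  refine (h1.image π).subset ?_
  show Subgroup.closure {π h₁, π h₂} ≤ (L.comap Ψ).map π
  rw [Subgroup.closure_le]
  rintro g (rfl | rfl)
  · exact ⟨h₁, m₁, rfl⟩
  · exact ⟨h₂, m₂, rfl⟩

lemma infinite_index_four {G : Type*} [Group G] (a p q : G) (ha : a * a = 1) (hp : p * p = 1)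
    (hq : q * q = 1) (hpq : q * p = p * q)
    (hinf : ((Subgroup.closure {a, p, q} : Subgroup G) : Set G).Infinite) :
    ((Subgroup.closure {p * q * a, p * a * q} : Subgroup G) : Set G).Infinite := by
  intro hfin
  apply hinf
  set Λ : Subgroup G := Subgroup.closure {p * q * a, p * a * q} with hΛ
  have m1 : p * q * a ∈ Λ := Subgroup.subset_closure (by simp)
  have m2 : p * a * q ∈ Λ := Subgroup.subset_closure (by simp)
  have ha' : a⁻¹ = a := inv_eq_of_mul_eq_one_right ha
  have hp' : p⁻¹ = p := inv_eq_of_mul_eq_one_right hp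
  have hq' : q⁻¹ = q := inv_eq_of_mul_eq_one_right hq
  have ha2 : ∀ g, a * (a * g) = g := fun g => by rw [← mul_assoc, ha, one_mul]
  have hp2 : ∀ g, p * (p * g) = g := fun g => by rw [← mul_assoc, hp, one_mul]
  have hq2 : ∀ g, q * (q * g) = g := fun g => by rw [← mul_assoc, hq, one_mul]
  have hpq2 : ∀ g, q * (p * g) = p * (q * g) := fun g => by rw [← mul_assoc, hpq, mul_assoc]
  have step : ∀ s ∈ ({a, p, q} : Set G), ∀ g : G,
      (∃ l ∈ Λ, g = l ∨ g = l * p ∨ g = l * q ∨ g = l * (p * q)) →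
      (∃ l ∈ Λ, g * s = l ∨ g * s = l * p ∨ g * s = l * q ∨ g * s = l * (p * q)) := by
    rintro s (rfl | rfl | rfl) g ⟨l, hl, rfl | rfl | rfl | rfl⟩
    · refine ⟨_, mul_mem hl (inv_mem m1), Or.inr (Or.inr (Or.inr ?_))⟩
      simp [mul_assoc, ha', hp', hq', hp2, hq]
    · refine ⟨_, mul_mem hl m2, Or.inr (Or.inr (Or.inl ?_))⟩
      simp [mul_assoc, hq]
    · refine ⟨_, mul_mem hl (inv_mem m2), Or.inr (Or.inl ?_)⟩
      simp [mul_assoc, ha', hp', hq', hp]
    · exact ⟨_, mul_mem hl m1, Or.inl (by simp [mul_assoc])⟩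
    · exact ⟨_, hl, Or.inr (Or.inl rfl)⟩
    · exact ⟨_, hl, Or.inl (by simp [mul_assoc, hp])⟩
    · exact ⟨_, hl, Or.inr (Or.inr (Or.inr (by simp [mul_assoc, hpq])))⟩
    · exact ⟨_, hl, Or.inr (Or.inr (Or.inl (by simp [mul_assoc, hpq, hp2])))⟩
    · exact ⟨_, hl, Or.inr (Or.inr (Or.inl rfl))⟩
    · exact ⟨_, hl, Or.inr (Or.inr (Or.inr (by simp [mul_assoc])))⟩
    · exact ⟨_, hl, Or.inl (by simp [mul_assoc, hq])⟩
    · exact ⟨_, hl, Or.inr (Or.inl (by simp [mul_assoc, hq]))⟩
  have key : ∀ g ∈ Subgroup.closure ({a, p, q} : Set G),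
      ∃ l ∈ Λ, g = l ∨ g = l * p ∨ g = l * q ∨ g = l * (p * q) := by
    intro g hg
    induction hg using Subgroup.closure_induction_right with
    | one => exact ⟨1, one_mem _, Or.inl rfl⟩
    | mul_right g _ s hs ih => exact step s hs g ih
    | mul_inv_cancel g _ s hs ih =>
      have : s⁻¹ = s := by rcases hs with rfl | rfl | rfl <;> assumption
      rw [this]
      exact step s hs g ih
  refine (((hfin.union (hfin.image (· * p))).union (hfin.image (· * q))).union
    (hfin.image (· * (p * q)))).subset fun g hg => ?_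
  obtain ⟨l, hl, rfl | rfl | rfl | rfl⟩ := key g hg
  · exact Or.inl (Or.inl (Or.inl hl))
  · exact Or.inl (Or.inl (Or.inr ⟨l, hl, rfl⟩))
  · exact Or.inl (Or.inr ⟨l, hl, rfl⟩)
  · exact Or.inr ⟨l, hl, rfl⟩

/-- alternating words with three steps -/
def word (φ : Bool) (w : ℕ → Fin 3) (c : Fin 3 × Fin 3 × Fin 3) : PT :=
  st φ c.1 w * (st φ c.2.1 w * (st φ c.2.2 w * 1))

lemma law_word (φ : Bool) (w : ℕ → Fin 3) (y₀ y₁ y₂ z₀ z₁ z₂ : Fin 3) (h₀ : y₀ ≠ Fin.rev (w 0))
    (h₁ : y₁ ≠ Fin.rev (w 0)) (h₂ : y₂ ≠ Fin.rev (w 0)) (k₀ : z₀ ≠ Fin.rev (w 0))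
    (k₁ : z₁ ≠ Fin.rev (w 0)) (k₂ : z₂ ≠ Fin.rev (w 0)) :
    ∃ A B r : PT, A = gen y₀ (sh 1 w) * genA * (gen y₂ (sh 1 w) * genA) * (gen y₁ (sh 1 w) * genA)
      ∧ B = gen z₀ (sh 1 w) * genA * (gen z₂ (sh 1 w) * genA) * (gen z₁ (sh 1 w) * genA)
      ∧ law (word φ w (y₀, y₁, y₂)) (word φ w (z₀, z₁, z₂)) = pairF φ (A * B * A⁻¹ * B⁻¹) r := by
  have key : ∀ y₀ y₁ y₂ : Fin 3, y₀ ≠ Fin.rev (w 0) → y₁ ≠ Fin.rev (w 0) → y₂ ≠ Fin.rev (w 0) →
      ∃ r, word φ w (y₀, y₁, y₂) ^ 2 = pairF φ
        (gen y₀ (sh 1 w) * genA * (gen y₂ (sh 1 w) * genA) * (gen y₁ (sh 1 w) * genA)) r := by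
    intro y₀ y₁ y₂ h₀ h₁ h₂
    have : word φ w (y₀, y₁, y₂) ^ 2
        = (st φ y₀ w * st φ y₁ w) * (st φ y₂ w * st φ y₀ w) * (st φ y₁ w * st φ y₂ w) := by
      simp only [word, sq, mul_one, mul_assoc]
    rw [this]
    simp only [st_mul_st, pairF_mul, ent, if_neg h₀, if_neg h₁, if_neg h₂]
    exact ⟨_, rfl⟩
  obtain ⟨r, hr⟩ := key y₀ y₁ y₂ h₀ h₁ h₂
  obtain ⟨r', hr'⟩ := key z₀ z₁ z₂ k₀ k₁ k₂
  refine ⟨_, _, r * r' * r⁻¹ * r'⁻¹, rfl, rfl, ?_⟩
  rw [law, hr, hr']
  cases φ <;> simp only [pairF, pair_inv, pair_mul, if_true, Bool.false_eq_true, if_false]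

set_option linter.unusedSimpArgs false in
lemma two_commutators (p q p' q' : PT) (e1 : p' = pair 1 p) (e2 : q' = pair genA q)
    (hp : p * p = 1) (hq : q * q = 1) (hpq : q * p = p * q) (A B C : PT)
    (hA : A = p' * genA * (p' * genA) * (p' * genA))
    (hB : B = q' * genA * (p' * genA) * (p' * genA))
    (hC : C = p' * genA * (p' * genA) * (q' * genA)) :
    A * B * A⁻¹ * B⁻¹ = pair (p * q * genA) (genA * (p * q)) ∧
      C * A * C⁻¹ * A⁻¹ = pair (p * genA * q) (q * genA * p) := by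
  have ha2 : ∀ g, genA * (genA * g) = g := fun g => by rw [← mul_assoc, genA_mul_self, one_mul]
  have hp2 : ∀ g, p * (p * g) = g := fun g => by rw [← mul_assoc, hp, one_mul]
  have hq2 : ∀ g, q * (q * g) = g := fun g => by rw [← mul_assoc, hq, one_mul]
  have hpq2 : ∀ g, q * (p * g) = p * (q * g) := fun g => by rw [← mul_assoc, hpq, mul_assoc]
  have hp' : p⁻¹ = p := inv_eq_of_mul_eq_one_right hp
  have hq' : q⁻¹ = q := inv_eq_of_mul_eq_one_right hq
  have s1 : ∀ f g h : PT, genA * (pair f g * h) = pair g f * (genA * h) := fun f g h => by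
    rw [← mul_assoc, genA_mul_pair, mul_assoc]
  have s2 : ∀ f g f' g' h : PT, pair f g * (pair f' g' * h) = pair (f * f') (g * g') * h :=
    fun f g f' g' h => by rw [← mul_assoc, pair_mul]
  subst hA hB hC e1 e2
  constructor <;>
  · simp only [mul_inv_rev, genA_inv, pair_inv, mul_assoc, s1, s2, ha2, genA_mul_pair,
      genA_mul_self, pair_mul, mul_one, one_mul, inv_one, hp', hq', hp2, hq2, hpq2, hp, hq, hpq]

theorem family_infinite (φ : Bool) (w : ℕ → Fin 3) (hw : w 1 ≠ w 0) (L : Subgroup PT)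
    (hL : ∀ c c' : Fin 3 × Fin 3 × Fin 3,
      (c.1 ≠ Fin.rev (w 0) ∧ c.2.1 ≠ Fin.rev (w 0) ∧ c.2.2 ≠ Fin.rev (w 0)) →
      (c'.1 ≠ Fin.rev (w 0) ∧ c'.2.1 ≠ Fin.rev (w 0) ∧ c'.2.2 ≠ Fin.rev (w 0)) →
      law (word φ w c) (word φ w c') ∈ L) : (L : Set PT).Infinite := by
  set x := Fin.rev (w 0) with hx
  set y := Fin.rev (w 1) with hy
  have hyx : y ≠ x := fun h => hw (Fin.rev_injective h)
  obtain ⟨z, hzx, hzy⟩ := exists_ne_ne x y
  have e1 : gen y (sh 1 w) = pair 1 (gen y (sh 2 w)) := by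
    rw [gen_eq, ent, if_pos (by rfl)]; rfl
  have e2 : gen z (sh 1 w) = pair genA (gen z (sh 2 w)) := by
    rw [gen_eq, ent, if_neg (by exact hzy)]; rfl
  have hpq : gen z (sh 2 w) * gen y (sh 2 w) = gen y (sh 2 w) * gen z (sh 2 w) := by
    rw [gen_mul_gen z y x hzy hzx hyx, gen_mul_gen y z x hzy.symm hyx hzx]
  obtain ⟨A, B, r, hA, hB, h1⟩ := law_word φ w y y y z y y hyx hyx hyx hzx hyx hyx
  obtain ⟨C, A', r', hC, hA', h2⟩ := law_word φ w y z y y y y hyx hzx hyx hyx hyx hyx
  obtain rfl : A' = A := hA'.trans hA.symm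
  obtain ⟨c1, c2⟩ := two_commutators _ _ _ _ e1 e2 (gen_mul_self _ _) (gen_mul_self _ _) hpq
    A' B C hA hB hC
  rw [c1] at h1
  rw [c2] at h2
  have m1 := hL (y, y, y) (z, y, y) ⟨hyx, hyx, hyx⟩ ⟨hzx, hyx, hyx⟩
  have m2 := hL (y, z, y) (y, y, y) ⟨hyx, hzx, hyx⟩ ⟨hyx, hyx, hyx⟩
  rw [h1] at m1
  rw [h2] at m2
  let Ψ : (PT × PT) × PT →* PT :=
    { toFun := fun h => pairF φ (pair h.1.1 h.1.2) h.2
      map_one' := by simp [pair_one, pairF_one]
      map_mul' := fun _ _ => by simp [pairF_mul, pair_mul] }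
  have hΨ : Function.Injective Ψ := by
    intro h h' e
    have : pair h.1.1 h.1.2 = pair h'.1.1 h'.1.2 ∧ h.2 = h'.2 := by
      cases φ
      · exact pair_inj e
      · exact (pair_inj e).symm
    exact Prod.ext (Prod.ext (pair_inj this.1).1 (pair_inj this.1).2) this.2
  refine infinite_of_sections Ψ hΨ ((MonoidHom.fst _ _).comp (MonoidHom.fst _ _))
    ((_, _), r) ((_, _), r') L m1 m2 ?_
  refine infinite_index_four genA _ _ genA_mul_self (gen_mul_self _ _) (gen_mul_self _ _) hpq ?_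
  refine (grigorchuk_infinite (sh 2 w)).mono ?_
  show grigorchuk (sh 2 w) ≤ _
  have hall : ∀ i, gen i (sh 2 w) ∈
      Subgroup.closure ({genA, gen y (sh 2 w), gen z (sh 2 w)} : Set PT) := by
    intro i
    have my : gen y (sh 2 w) ∈ Subgroup.closure ({genA, gen y (sh 2 w), gen z (sh 2 w)} : Set PT) :=
      Subgroup.subset_closure (by simp)
    have mz : gen z (sh 2 w) ∈ Subgroup.closure ({genA, gen y (sh 2 w), gen z (sh 2 w)} : Set PT) :=
      Subgroup.subset_closure (by simp)
    by_cases hi : i = y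
    · exact hi ▸ my
    by_cases hi' : i = z
    · exact hi' ▸ mz
    rw [← gen_mul_gen y z i hzy.symm (Ne.symm hi) (Ne.symm hi')]
    exact mul_mem my mz
  rw [grigorchuk, Subgroup.closure_le]
  rintro g (rfl | rfl | rfl | rfl)
  · exact Subgroup.subset_closure (by simp)
  all_goals exact hall _

end Pool.Agent.MP_56119d_al

end MrgPart1

-- ======== part 2: formerly Pool.Agent.MP_56119d_al.Walk
section MrgPart2

/-! Random-walk counting estimates used for the Folner function lower bound. -/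

namespace Pool.Agent.MP_56119d_al

open Finset

section Walk

variable {Q : Type*} [Group Q] {T : Type*} [Fintype T]

open Classical in
/-- distribution of the product of `n` independent uniform steps `t c`. -/
noncomputable def prob (t : T → Q) : ℕ → Q → ℝ
  | 0, g => if g = 1 then 1 else 0
  | n + 1, g => (∑ c, prob t n ((t c)⁻¹ * g)) / Fintype.card T

open Classical in
lemma prob_zero (t : T → Q) (g : Q) : prob t 0 g = if g = 1 then 1 else 0 := rfl

lemma prob_zero_congr {Q' : Type*} [Group Q'] {T' : Type*} [Fintype T'] (t : T → Q) (t' : T' → Q')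
    {g : Q} {g' : Q'} (h : g = 1 ↔ g' = 1) : prob t 0 g = prob t' 0 g' := by
  rw [prob_zero, prob_zero]
  by_cases hg : g = 1
  · rw [if_pos hg, if_pos (h.1 hg)]
  · rw [if_neg hg, if_neg (fun h' => hg (h.2 h'))]

lemma prob_succ (t : T → Q) (n : ℕ) (g : Q) :
    prob t (n + 1) g = (∑ c, prob t n ((t c)⁻¹ * g)) / Fintype.card T := rfl

lemma prob_nonneg (t : T → Q) : ∀ (n : ℕ) (g : Q), 0 ≤ prob t n g
  | 0, g => by rw [prob_zero]; split_ifs <;> norm_num
  | n + 1, g => by
    rw [prob_succ]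
    exact div_nonneg (sum_nonneg fun c _ => prob_nonneg t n _) (Nat.cast_nonneg _)

lemma prob_succ' (t : T → Q) : ∀ (n : ℕ) (g : Q),
    prob t (n + 1) g = (∑ c, prob t n (g * (t c)⁻¹)) / Fintype.card T
  | 0, g => by
    rw [prob_succ]
    congr 1
    refine sum_congr rfl fun c _ => ?_
    exact prob_zero_congr _ _ (by rw [inv_mul_eq_one, mul_inv_eq_one, eq_comm])
  | n + 1, g => by
    rw [prob_succ]
    congr 1
    have h1 : ∀ c, prob t (n + 1) ((t c)⁻¹ * g)
        = (∑ c', prob t n ((t c)⁻¹ * g * (t c')⁻¹)) / Fintype.card T := fun c => prob_succ' t n _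
    have h2 : ∀ c', prob t (n + 1) (g * (t c')⁻¹)
        = (∑ c, prob t n ((t c)⁻¹ * g * (t c')⁻¹)) / Fintype.card T := fun c' => by
      rw [prob_succ]; simp only [mul_assoc]
    simp only [h1, h2, ← sum_div]
    rw [sum_comm]

lemma prob_inv (t : T → Q) (ι : T ≃ T) (hι : ∀ c, t (ι c) = (t c)⁻¹) :
    ∀ (n : ℕ) (g : Q), prob t n g⁻¹ = prob t n g
  | 0, g => prob_zero_congr _ _ inv_eq_one
  | n + 1, g => by
    rw [prob_succ, prob_succ']
    congr 1
    rw [← Equiv.sum_comp ι (fun c => prob t n (g * (t c)⁻¹))]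
    refine sum_congr rfl fun c _ => ?_
    rw [hι, inv_inv, ← prob_inv t ι hι n (g * t c), mul_inv_rev]

lemma prob_ck (t : T → Q) (W : Finset Q) (m : ℕ) (y : Q) : ∀ (n : ℕ) (x : Q),
    ∑ z ∈ W, prob t n (x⁻¹ * z) * prob t m (z⁻¹ * y) ≤ prob t (n + m) (x⁻¹ * y)
  | 0, x => by
    classical
    simp only [prob_zero, inv_mul_eq_one, ite_mul, one_mul, zero_mul, zero_add]
    rw [sum_ite_eq]
    split_ifs
    · exact le_rfl
    · exact prob_nonneg _ _ _
  | n + 1, x => by
    have e : n + 1 + m = (n + m) + 1 := by ring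
    rw [e, prob_succ]
    have h1 : ∀ z, prob t (n + 1) (x⁻¹ * z) * prob t m (z⁻¹ * y)
        = (∑ c, prob t n ((x * t c)⁻¹ * z) * prob t m (z⁻¹ * y)) / Fintype.card T := fun z => by
      rw [prob_succ, ← sum_mul, div_mul_eq_mul_div]
      simp only [mul_inv_rev, mul_assoc]
    simp only [h1, ← sum_div]
    rw [sum_comm]
    refine div_le_div_of_nonneg_right (sum_le_sum fun c _ => ?_) (Nat.cast_nonneg _)
    have := prob_ck t W m y n (x * t c)
    simpa only [mul_inv_rev, mul_assoc] using this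

lemma prob_mass [Nonempty T] (t : T → Q) : ∀ (n : ℕ) (B : Finset Q), ∑ q ∈ B, prob t n q ≤ 1
  | 0, B => by
    classical
    simp only [prob_zero]
    rw [sum_ite_eq']
    split_ifs <;> norm_num
  | n + 1, B => by
    classical
    simp only [prob_succ, ← sum_div]
    rw [sum_comm, div_le_one (by exact_mod_cast Fintype.card_pos)]
    calc ∑ c, ∑ q ∈ B, prob t n ((t c)⁻¹ * q) ≤ ∑ _c : T, (1 : ℝ) := by
          refine sum_le_sum fun c _ => ?_
          have := prob_mass t n (B.image fun q => (t c)⁻¹ * q)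
          rwa [sum_image (fun a _ b _ h => mul_left_cancel h)] at this
      _ = Fintype.card T := by simp

lemma prob_le_one [Nonempty T] (t : T → Q) (n : ℕ) (q : Q) : prob t n q ≤ 1 := by
  simpa using prob_mass t n {q}

lemma prob_mono [Nonempty T] (t : T → Q) (n : ℕ) (M : ℝ) (h : ∀ q, prob t n q ≤ M) :
    ∀ (k : ℕ) (q : Q), prob t (n + k) q ≤ M
  | 0, q => h q
  | k + 1, q => by
    rw [← add_assoc, prob_succ, div_le_iff₀ (by exact_mod_cast Fintype.card_pos)]
    calc ∑ c, prob t (n + k) ((t c)⁻¹ * q) ≤ ∑ _c : T, M :=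
          sum_le_sum fun c _ => prob_mono t n M h k _
      _ = M * Fintype.card T := by simp [mul_comm]

open Classical Pointwise in
lemma prob_deficit [Nonempty T] (t : T → Q) (n : ℕ) (M : ℝ) (h : ∀ q, prob t n q ≤ M) (q : Q) :
    ∀ (D : ℕ) (g : Q), g ∈ (univ.image t) ^ D →
      (M - prob t n q) / (Fintype.card T : ℝ) ^ D ≤ M - prob t (n + D) (g * q)
  | 0, g, hg => by
    simp only [pow_zero, mem_one] at hg
    simp [hg]
  | D + 1, g, hg => by
    rw [pow_succ', mem_mul] at hg
    obtain ⟨s, hs, g', hg', rfl⟩ := hg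
    obtain ⟨c, -, rfl⟩ := mem_image.1 hs
    have ih := prob_deficit t n M h q D g' hg'
    have hc : (0 : ℝ) < Fintype.card T := by exact_mod_cast Fintype.card_pos
    rw [← add_assoc, prob_succ]
    have h1 : M - (∑ c', prob t (n + D) ((t c')⁻¹ * (t c * g' * q))) / Fintype.card T
        = (∑ c', (M - prob t (n + D) ((t c')⁻¹ * (t c * g' * q)))) / Fintype.card T := by
      rw [sum_sub_distrib]
      simp only [sum_const, card_univ, nsmul_eq_mul]
      field_simp
    rw [h1, pow_succ, ← div_div]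
    refine div_le_div_of_nonneg_right (ih.trans ?_) hc.le
    have h2 := single_le_sum (f := fun c' => M - prob t (n + D) ((t c')⁻¹ * (t c * g' * q)))
      (fun c' _ => sub_nonneg.2 (prob_mono t n M h D _)) (mem_univ c)
    simpa only [mul_assoc, inv_mul_cancel_left] using h2

open Classical Pointwise in
lemma prob_drop [Nonempty T] (t : T → Q) (h1 : ∃ c, t c = 1)
    (hinf : ((Subgroup.closure (Set.range t) : Subgroup Q) : Set Q).Infinite)
    (n D : ℕ) (M : ℝ) (h : ∀ q, prob t n q ≤ M) (x : Q) :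
    prob t (n + D) x ≤ M - (M - 1 / (D + 1)) / (Fintype.card T : ℝ) ^ D := by
  have hc : (0 : ℝ) < Fintype.card T := by exact_mod_cast Fintype.card_pos
  have hcard : D + 1 ≤ #((univ.image t) ^ D) := by
    refine add_one_le_card_pow ?_ ?_ D
    · obtain ⟨c, hc⟩ := h1
      exact mem_image.2 ⟨c, mem_univ _, hc⟩
    · simpa only [coe_image, coe_univ, Set.image_univ] using hinf
  have hex : ∃ g ∈ (univ.image t) ^ D, prob t n (g⁻¹ * x) ≤ 1 / (D + 1) := by
    by_contra hcon
    push Not at hcon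
    have hm := prob_mass t n (((univ.image t) ^ D).image fun g => g⁻¹ * x)
    rw [sum_image (fun a _ b _ h => inv_injective (mul_right_cancel h))] at hm
    have hne : ((univ.image t) ^ D).Nonempty := card_pos.1 (by omega)
    have := sum_lt_sum_of_nonempty hne hcon
    simp only [sum_const, nsmul_eq_mul] at this
    have h3 : ((D : ℝ) + 1) ≤ (#((univ.image t) ^ D) : ℝ) := by exact_mod_cast hcard
    have h4 : (1 : ℝ) ≤ (#((univ.image t) ^ D) : ℝ) * (1 / (D + 1)) := by
      rw [mul_one_div, le_div_iff₀ (by positivity)]; linarith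
    linarith
  obtain ⟨g, hg, hq⟩ := hex
  have := prob_deficit t n M h (g⁻¹ * x) D g hg
  rw [mul_inv_cancel_left] at this
  have h5 : (M - 1 / (D + 1)) / (Fintype.card T : ℝ) ^ D
      ≤ (M - prob t n (g⁻¹ * x)) / (Fintype.card T : ℝ) ^ D :=
    div_le_div_of_nonneg_right (by linarith) (by positivity)
  linarith

/-- Uniform decay of the walk on an infinite group. -/
lemma prob_decay (Q : Type*) [Group Q] (T : Type*) [Fintype T] [Nonempty T] (δ : ℝ) (hδ : 0 < δ) :
    ∃ R : ℕ, ∀ t : T → Q, (∃ c, t c = 1) →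
      ((Subgroup.closure (Set.range t) : Subgroup Q) : Set Q).Infinite →
      ∀ n, R ≤ n → ∀ q, prob t n q ≤ δ := by
  obtain ⟨D, hD⟩ := exists_nat_gt (2 / δ)
  have hc : (0 : ℝ) < Fintype.card T := by exact_mod_cast Fintype.card_pos
  set η : ℝ := 1 / (D + 1) / (Fintype.card T : ℝ) ^ D with hη
  have hηpos : 0 < η := by positivity
  obtain ⟨J, hJ⟩ := exists_nat_gt (1 / η)
  refine ⟨J * D, fun t h1 hinf n hn q => ?_⟩
  have key : ∀ j : ℕ, ∀ q, prob t (j * D) q ≤ max ((2 : ℝ) / (D + 1)) (1 - j * η) := by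
    intro j
    induction j with
    | zero => intro q; simpa using Or.inr (prob_le_one t 0 q)
    | succ j ih =>
      intro q
      rw [add_mul, one_mul]
      refine (prob_drop t h1 hinf _ D _ ih q).trans ?_
      set M : ℝ := max ((2 : ℝ) / (D + 1)) (1 - j * η) with hM
      have hM1 : (2 : ℝ) / (D + 1) ≤ M := le_max_left _ _
      have h2 : η ≤ (M - 1 / (D + 1)) / (Fintype.card T : ℝ) ^ D := by
        refine div_le_div_of_nonneg_right ?_ (by positivity)
        have : (2 : ℝ) / (D + 1) = 1 / (D + 1) + 1 / (D + 1) := by ring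
        linarith
      rcases le_total ((2 : ℝ) / (D + 1)) (1 - j * η) with h3 | h3
      · have : M = 1 - j * η := max_eq_right h3
        refine le_trans ?_ (le_max_right _ _)
        push_cast
        linarith
      · have : M = 2 / (D + 1) := max_eq_left h3
        refine le_trans ?_ (le_max_left _ _)
        linarith
  obtain ⟨k, rfl⟩ := Nat.exists_eq_add_of_le hn
  refine prob_mono t _ δ (fun q => (key J q).trans (max_le ?_ ?_)) k q
  · rw [div_lt_iff₀ hδ] at hD
    rw [div_le_iff₀ (by positivity)]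
    nlinarith
  · rw [div_lt_iff₀ hηpos] at hJ
    linarith

lemma prob_pi {U : Type*} [Fintype U] [DecidableEq U] (σ : U → T → Q) :
    ∀ (n : ℕ) (h : U → Q),
      prob (fun (c : U → T) u => σ u (c u)) n h = ∏ u, prob (σ u) n (h u)
  | 0, h => by
    classical
    simp only [prob_zero]
    rw [Finset.prod_boole]
    simp [funext_iff]
  | n + 1, h => by
    simp only [prob_succ, prod_div_distrib, prob_pi σ n]
    congr 1
    · rw [Finset.prod_univ_sum]
      simp
    · simp

lemma prob_hom {P : Type*} [Group P] (ψ : Q →* P) (hψ : Function.Injective ψ) (t : T → Q) :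
    ∀ (n : ℕ) (h : Q), prob (fun c => ψ (t c)) n (ψ h) = prob t n h
  | 0, h => prob_zero_congr _ _ (map_eq_one_iff ψ hψ)
  | n + 1, h => by
    simp only [prob_succ, ← map_inv, ← map_mul, prob_hom ψ hψ t n]

open Classical in
/-- Cauchy-Schwarz iteration. -/
lemma slice_bound [Nonempty T] (t : T → Q) (ι : T ≃ T) (hι : ∀ c, t (ι c) = (t c)⁻¹)
    (W : Finset Q) (hW : W.Nonempty) (e : ℕ) (B : ℝ)
    (hB : ∀ x ∈ W, ∀ y ∈ W, prob t (2 ^ e) (x⁻¹ * y) ≤ B)
    (hstay : 2 * ∑ x ∈ W, (#(univ.filter fun c => x * t c ∉ W) : ℝ) ≤ #W * Fintype.card T) :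
    1 ≤ (#W : ℝ) * B * 2 ^ 2 ^ e := by
  have hc : (0 : ℝ) < Fintype.card T := by exact_mod_cast Fintype.card_pos
  have hWpos : (0 : ℝ) < #W := by exact_mod_cast hW.card_pos
  have key : ∀ j : ℕ, (#W : ℝ) / 2 ^ 2 ^ j ≤ ∑ x ∈ W, ∑ y ∈ W, prob t (2 ^ j) (x⁻¹ * y) := by
    intro j
    induction j with
    | zero =>
      have h1 : ∀ x ∈ W, ∑ y ∈ W, prob t (2 ^ 0) (x⁻¹ * y)
          = 1 - (#(univ.filter fun c => x * t c ∉ W) : ℝ) / Fintype.card T := by
        intro x _
        have : ∀ y, prob t (2 ^ 0) (x⁻¹ * y)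
            = (∑ c, if x * t c = y then (1 : ℝ) else 0) / Fintype.card T := by
          intro y
          show prob t (0 + 1) _ = _
          rw [prob_succ]
          congr 1
          refine sum_congr rfl fun c _ => ?_
          rw [prob_zero, ← mul_assoc, ← mul_inv_rev]
          simp only [inv_mul_eq_one]
        simp only [this, ← sum_div]
        rw [sum_comm]
        simp only [sum_ite_eq]
        rw [eq_sub_iff_add_eq, ← add_div, div_eq_one_iff_eq hc.ne']
        have h2 := Finset.card_filter_add_card_filter_not (s := (univ : Finset T))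
          (fun c => x * t c ∈ W)
        rw [sum_boole]
        rw [card_univ] at h2
        exact_mod_cast h2
      rw [sum_congr rfl h1, sum_sub_distrib, ← sum_div]
      simp only [sum_const, nsmul_eq_mul, mul_one, pow_zero, pow_one]
      rw [le_sub_iff_add_le, ← le_sub_iff_add_le', div_le_iff₀ hc]
      linarith
    | succ j ih =>
      have h1 : ∑ z ∈ W, (∑ y ∈ W, prob t (2 ^ j) (z⁻¹ * y)) ^ 2
          ≤ ∑ x ∈ W, ∑ y ∈ W, prob t (2 ^ (j + 1)) (x⁻¹ * y) := by
        have e2 : 2 ^ (j + 1) = 2 ^ j + 2 ^ j := by ring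
        calc ∑ z ∈ W, (∑ y ∈ W, prob t (2 ^ j) (z⁻¹ * y)) ^ 2
            = ∑ z ∈ W, ∑ x ∈ W, ∑ y ∈ W,
                prob t (2 ^ j) (x⁻¹ * z) * prob t (2 ^ j) (z⁻¹ * y) := by
              refine sum_congr rfl fun z _ => ?_
              rw [sq, sum_mul_sum]
              refine sum_congr rfl fun x _ => sum_congr rfl fun y _ => ?_
              rw [← prob_inv t ι hι _ (z⁻¹ * x)]
              simp only [mul_inv_rev, inv_inv]
          _ = ∑ x ∈ W, ∑ y ∈ W, ∑ z ∈ W,
                prob t (2 ^ j) (x⁻¹ * z) * prob t (2 ^ j) (z⁻¹ * y) := by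
              rw [sum_comm]
              exact sum_congr rfl fun x _ => sum_comm
          _ ≤ _ := by
              rw [e2]
              exact sum_le_sum fun x _ => sum_le_sum fun y _ => prob_ck t W _ y _ x
      have h2 := sq_sum_le_card_mul_sum_sq (s := W)
        (f := fun z => ∑ y ∈ W, prob t (2 ^ j) (z⁻¹ * y))
      have h3 : ((#W : ℝ) / 2 ^ 2 ^ j) ^ 2
          ≤ (∑ x ∈ W, ∑ y ∈ W, prob t (2 ^ j) (x⁻¹ * y)) ^ 2 :=
        pow_le_pow_left₀ (by positivity) ih 2
      have h4 : ((#W : ℝ) / 2 ^ 2 ^ j) ^ 2 = #W * (#W / 2 ^ 2 ^ (j + 1)) := by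
        rw [pow_succ 2 j, pow_mul]
        field_simp
      have h5 : (#W : ℝ) * (#W / 2 ^ 2 ^ (j + 1))
          ≤ #W * ∑ x ∈ W, ∑ y ∈ W, prob t (2 ^ (j + 1)) (x⁻¹ * y) := by
        rw [← h4]
        exact h3.trans (h2.trans (mul_le_mul_of_nonneg_left h1 hWpos.le))
      exact le_of_mul_le_mul_left h5 hWpos
  have h6 : ∑ x ∈ W, ∑ y ∈ W, prob t (2 ^ e) (x⁻¹ * y) ≤ #W * (#W * B) := by
    calc _ ≤ ∑ _x ∈ W, ∑ _y ∈ W, B :=
          sum_le_sum fun x hx => sum_le_sum fun y hy => hB x hx y hy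
      _ = _ := by simp
  have h7 := (key e).trans h6
  rw [div_le_iff₀ (by positivity)] at h7
  have h8 : (#W : ℝ) * 1 ≤ #W * (#W * B * 2 ^ 2 ^ e) := by linarith
  exact le_of_mul_le_mul_left h8 hWpos

end Walk

end Pool.Agent.MP_56119d_al

end MrgPart2

-- ======== part 3: formerly Pool.Agent.MP_56119d_al.Han
section MrgPart3

/-! A Han/Loomis-Whitney type inequality for cosets and the abstract volume bound. -/

namespace Pool.Agent.MP_56119d_al

open Finset

section Han

variable {P : Type*} [Group P]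

open Classical in
/-- the slice of `F` through `x` along the subgroup `K`. -/
noncomputable def slice (F : Finset P) (K : Subgroup P) (x : P) : Finset P :=
  F.filter fun y => x⁻¹ * y ∈ K

lemma mem_slice {F : Finset P} {K : Subgroup P} {x y : P} :
    y ∈ slice F K x ↔ y ∈ F ∧ x⁻¹ * y ∈ K := by
  classical
  unfold slice
  convert mem_filter

lemma self_mem_slice {F : Finset P} (K : Subgroup P) {x : P} (hx : x ∈ F) : x ∈ slice F K x :=
  mem_slice.2 ⟨hx, by simp⟩

lemma slice_card_pos {F : Finset P} (K : Subgroup P) {x : P} (hx : x ∈ F) :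
    (0 : ℝ) < #(slice F K x) := by
  exact_mod_cast card_pos.2 ⟨x, self_mem_slice K hx⟩

lemma slice_eq {F : Finset P} {K : Subgroup P} {x y : P} (h : x⁻¹ * y ∈ K) :
    slice F K y = slice F K x := by
  ext z
  simp only [mem_slice]
  refine and_congr_right fun _ => ⟨fun hz => ?_, fun hz => ?_⟩
  · simpa [mul_assoc] using K.mul_mem h hz
  · simpa [mul_assoc] using K.mul_mem (K.inv_mem h) hz

/-- averaging over slices -/
lemma sum_slice_avg (F : Finset P) (K : Subgroup P) (f : P → ℝ) :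
    ∑ x ∈ F, (∑ y ∈ slice F K x, f y) / #(slice F K x) = ∑ y ∈ F, f y := by
  classical
  have h1 : ∀ x ∈ F, (∑ y ∈ slice F K x, f y) / #(slice F K x)
      = ∑ y ∈ F, if x ∈ slice F K y then f y / #(slice F K y) else 0 := by
    intro x hx
    rw [sum_div, ← sum_filter]
    refine sum_congr ?_ fun y hy => ?_
    · ext y
      simp only [mem_slice, mem_filter, hx, true_and]
      refine and_congr_right fun _ => ⟨fun h => ?_, fun h => ?_⟩ <;>
        simpa using K.inv_mem h
    · rw [mem_filter, mem_slice] at hy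
      rw [slice_eq hy.2.2]
  rw [sum_congr rfl h1, sum_comm]
  refine sum_congr rfl fun y hy => ?_
  rw [← sum_filter, sum_const, nsmul_eq_mul]
  have : F.filter (fun x => x ∈ slice F K y) = slice F K y := by
    ext x
    simp only [mem_filter, mem_slice]
    tauto
  rw [this, mul_div_cancel₀ _ (slice_card_pos K hy).ne']

lemma han_two (F : Finset P) (K₁ K₂ K : Subgroup P) (h₁ : K₁ ≤ K) (h₂ : K₂ ≤ K)
    (hd : ∀ g, g ∈ K₁ → g ∈ K₂ → g = 1) :
    ∑ x ∈ F, Real.log #(slice F K₁ x) + ∑ x ∈ F, Real.log #(slice F K₂ x)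
      ≤ ∑ x ∈ F, Real.log #(slice F K x) := by
  classical
  have key : ∀ y ∈ F, ∑ x ∈ slice F K₁ y, (#(slice F K₂ x) : ℝ) ≤ #(slice F K y) := by
    intro y _
    have : ∑ x ∈ slice F K₁ y, #(slice F K₂ x) ≤ #(slice F K y) := by
      rw [← card_biUnion]
      · refine card_le_card fun z hz => ?_
        obtain ⟨x, hx, hz⟩ := mem_biUnion.1 hz
        rw [mem_slice] at hx hz ⊢
        exact ⟨hz.1, by simpa [mul_assoc] using K.mul_mem (h₁ hx.2) (h₂ hz.2)⟩
      · intro x hx x' hx' hne
        rw [Function.onFun, disjoint_left]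
        intro z hz hz'
        rw [mem_coe, mem_slice] at hx hx'
        rw [mem_slice] at hz hz'
        apply hne
        have := hd (x⁻¹ * x') (by simpa [mul_assoc] using K₁.mul_mem (K₁.inv_mem hx.2) hx'.2)
          (by simpa [mul_assoc] using K₂.mul_mem hz.2 (K₂.inv_mem hz'.2))
        exact inv_mul_eq_one.1 this
    exact_mod_cast this
  have h3 : ∑ x ∈ F, (#(slice F K₁ x) : ℝ) * #(slice F K₂ x) / #(slice F K x) ≤ #F := by
    rw [← sum_slice_avg F K₁]
    calc _ ≤ ∑ _y ∈ F, (1 : ℝ) := by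
          refine sum_le_sum fun y hy => ?_
          rw [div_le_one (slice_card_pos K₁ hy)]
          have h4 : ∀ x ∈ slice F K₁ y, (#(slice F K₁ x) : ℝ) * #(slice F K₂ x) / #(slice F K x)
              = #(slice F K₁ y) / #(slice F K y) * #(slice F K₂ x) := by
            intro x hx
            rw [mem_slice] at hx
            rw [slice_eq hx.2, slice_eq (h₁ hx.2)]
            ring
          rw [sum_congr rfl h4, ← mul_sum, div_mul_eq_mul_div,
            div_le_iff₀ (slice_card_pos K hy)]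
          exact mul_le_mul_of_nonneg_left (key y hy) (Nat.cast_nonneg _)
      _ = _ := by simp
  have h5 : ∀ x ∈ F, Real.log #(slice F K₁ x) + Real.log #(slice F K₂ x)
      - Real.log #(slice F K x) ≤ (#(slice F K₁ x) : ℝ) * #(slice F K₂ x) / #(slice F K x) - 1 := by
    intro x hx
    have p1 := slice_card_pos K₁ hx
    have p2 := slice_card_pos K₂ hx
    have p3 := slice_card_pos K hx
    rw [← Real.log_mul p1.ne' p2.ne', ← Real.log_div (by positivity) p3.ne']
    exact Real.log_le_sub_one_of_pos (by positivity)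
  have h6 := sum_le_sum h5
  rw [sum_sub_distrib, sum_sub_distrib, sum_add_distrib] at h6
  simp only [sum_const, nsmul_eq_mul, mul_one] at h6
  linarith

lemma han {I : Type*} [DecidableEq I] (F : Finset P) (K : Finset I → Subgroup P) (hK : Monotone K)
    (hd : ∀ (i : I) (J : Finset I), i ∉ J → ∀ g, g ∈ K {i} → g ∈ K J → g = 1) (J : Finset I) :
    ∑ i ∈ J, ∑ x ∈ F, Real.log #(slice F (K {i}) x) ≤ ∑ x ∈ F, Real.log #(slice F (K J) x) := by
  induction J using Finset.induction_on with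
  | empty =>
    rw [sum_empty]
    exact sum_nonneg fun x _ => Real.log_natCast_nonneg _
  | insert i J hi ih =>
    rw [sum_insert hi]
    have := han_two F (K {i}) (K J) (K (insert i J)) (hK (by simp)) (hK (subset_insert _ _))
      (hd i J hi)
    linarith

open Classical in
/-- number of points of `F` that leave `F` under right multiplication by `g`. -/
noncomputable def exits (F : Finset P) (g : P) : ℕ := #(F.filter fun x => x * g ∉ F)

lemma exits_one (F : Finset P) : exits F 1 = 0 := by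
  simp [exits]

lemma exits_mul (F : Finset P) (g h : P) : exits F (g * h) ≤ exits F g + exits F h := by
  classical
  unfold exits
  have h1 : #((F.filter fun x => x * h ∉ F).image fun y => y * g⁻¹)
      ≤ #(F.filter fun x => x * h ∉ F) := card_image_le
  refine le_trans (card_le_card (t := (F.filter fun x => x * g ∉ F) ∪
    ((F.filter fun x => x * h ∉ F).image fun y => y * g⁻¹)) ?_) ((card_union_le _ _).trans ?_)
  · intro x hx
    rw [mem_filter] at hx
    by_cases hg : x * g ∈ F
    · refine mem_union_right _ (mem_image.2 ⟨x * g, mem_filter.2 ⟨hg, ?_⟩, by simp⟩)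
      simpa [mul_assoc] using hx.2
    · exact mem_union_left _ (mem_filter.2 ⟨hx.1, hg⟩)
  · convert Nat.add_le_add_left h1 _

lemma exits_inv (F : Finset P) (g : P) : exits F g⁻¹ = exits F g := by
  classical
  unfold exits
  have h1 := Finset.card_filter_add_card_filter_not (s := F) (fun x => x * g ∈ F)
  have h2 := Finset.card_filter_add_card_filter_not (s := F) (fun x => x * g⁻¹ ∈ F)
  have h3 : #(F.filter fun x => x * g ∈ F) = #(F.filter fun x => x * g⁻¹ ∈ F) := by
    refine card_bij (fun x _ => x * g) ?_ ?_ ?_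
    · intro x hx
      rw [mem_filter] at hx ⊢
      exact ⟨hx.2, by simpa using hx.1⟩
    · intro x _ y _ h
      exact mul_right_cancel h
    · intro y hy
      rw [mem_filter] at hy
      exact ⟨y * g⁻¹, mem_filter.2 ⟨hy.2, by simpa using hy.1⟩, by simp⟩
  have h4 : #(F.filter fun x => x * g⁻¹ ∉ F) = #(F.filter fun x => x * g ∉ F) := by omega
  convert h4

/-- One block: the average logarithm of the slice size is large. -/
lemma block_bound {T : Type*} [Fintype T] [Nonempty T] (F : Finset P) (K : Subgroup P)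
    (t : T → P) (ht : ∀ c, t c ∈ K) (ι : T ≃ T) (hι : ∀ c, t (ι c) = (t c)⁻¹) (e : ℕ) (B : ℝ)
    (hBpos : 0 < B) (hB : ∀ g ∈ K, prob t (2 ^ e) g ≤ B) (hF : ∀ c, 4 * exits F (t c) ≤ #F) :
    (#F : ℝ) / 2 * (-Real.log B - 2 ^ e * Real.log 2) ≤ ∑ x ∈ F, Real.log #(slice F K x) := by
  classical
  have hc : (0 : ℝ) < Fintype.card T := by exact_mod_cast Fintype.card_pos
  set L : ℝ := -Real.log B - 2 ^ e * Real.log 2 with hL
  rcases le_total L 0 with hL0 | hL0
  · exact le_trans (mul_nonpos_of_nonneg_of_nonpos (by positivity) hL0)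
      (sum_nonneg fun x _ => Real.log_natCast_nonneg _)
  set ex : P → ℝ := fun y => (#(univ.filter fun c => y * t c ∉ F) : ℝ) with hex
  have hsum : 4 * ∑ y ∈ F, ex y ≤ #F * Fintype.card T := by
    have h1 : ∑ y ∈ F, ex y = ∑ c, (exits F (t c) : ℝ) := by
      simp only [hex, exits, card_filter]
      push_cast
      rw [sum_comm]
    rw [h1, mul_sum]
    calc ∑ c, 4 * (exits F (t c) : ℝ) ≤ ∑ _c : T, (#F : ℝ) :=
          sum_le_sum fun c _ => by exact_mod_cast hF c
      _ = _ := by simp [mul_comm]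
  have hpt : ∀ x ∈ F, L * (1 - 2 * ((∑ y ∈ slice F K x, ex y) / #(slice F K x)) / Fintype.card T)
      ≤ Real.log #(slice F K x) := by
    intro x hx
    have hp := slice_card_pos K hx
    by_cases hg : 2 * ∑ y ∈ slice F K x, ex y ≤ #(slice F K x) * Fintype.card T
    · have h2 := slice_bound t ι hι (slice F K x) ⟨x, self_mem_slice K hx⟩ e B ?_ ?_
      · have h3 := Real.log_nonneg h2
        rw [Real.log_mul (by positivity) (by positivity), Real.log_mul hp.ne' hBpos.ne',
          Real.log_pow] at h3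
        push_cast at h3
        have h4 : 0 ≤ 2 * ((∑ y ∈ slice F K x, ex y) / #(slice F K x)) / Fintype.card T :=
          div_nonneg (mul_nonneg (by norm_num)
            (div_nonneg (sum_nonneg fun y _ => Nat.cast_nonneg _) hp.le)) hc.le
        nlinarith
      · intro y hy z hz
        rw [mem_slice] at hy hz
        exact hB _ (by simpa [mul_assoc] using K.mul_mem (K.inv_mem hy.2) hz.2)
      · convert hg using 3 with y hy
        simp only [hex]
        congr 2
        ext c
        rw [mem_slice] at hy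
        simp only [mem_filter, mem_univ, true_and, mem_slice, not_and]
        refine ⟨fun h h' => h h' ?_, fun h h' => absurd h' h⟩
        simpa [mul_assoc] using K.mul_mem hy.2 (ht c)
    · push Not at hg
      refine le_trans (mul_nonpos_of_nonneg_of_nonpos hL0 ?_) (Real.log_natCast_nonneg _)
      rw [sub_nonpos, le_div_iff₀ hc, ← mul_div_assoc, le_div_iff₀ hp]
      linarith
  refine le_trans ?_ (sum_le_sum hpt)
  rw [← mul_sum, sum_sub_distrib, ← sum_div, ← mul_sum, sum_slice_avg, mul_comm]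
  refine mul_le_mul_of_nonneg_left ?_ hL0
  simp only [sum_const, nsmul_eq_mul, mul_one]
  rw [le_sub_iff_add_le, ← le_sub_iff_add_le', div_le_iff₀ hc]
  linarith

/-- functions supported on the blocks in `J`. -/
def blockSub {U I : Type*} (Q : Type*) [Group Q] (β : U → I) (J : Finset I) : Subgroup (U → Q) where
  carrier := {h | ∀ u, β u ∉ J → h u = 1}
  one_mem' := fun _ _ => rfl
  mul_mem' := fun {a b} ha hb u hu => by simp [ha u hu, hb u hu]
  inv_mem' := fun {a} ha u hu => by simp [ha u hu]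

open Classical in
/-- The abstract volume bound. -/
theorem volume_bound {U I T Q : Type*} [Fintype U] [Fintype I] [Fintype T] [Nonempty T] [Group Q]
    (Φ : (U → Q) →* P) (hΦ : Function.Injective Φ) (β : U → I) (σ : U → T → Q) (ι : T ≃ T)
    (hι : ∀ u c, σ u (ι c) = (σ u c)⁻¹) (δ : ℝ) (hδ : 0 < δ) (e : ℕ)
    (hp : ∀ u q, prob (σ u) (2 ^ e) q ≤ δ) (F : Finset P) (hF : F.Nonempty)
    (hex : ∀ (i : I) (c : U → T),
      4 * exits F (Φ fun u => if β u = i then σ u (c u) else 1) ≤ #F) :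
    (Fintype.card U * (-Real.log δ) - Fintype.card I * (2 ^ e * Real.log 2)) / 2
      ≤ Real.log #F := by
  have hFpos : (0 : ℝ) < #F := by exact_mod_cast hF.card_pos
  set K : Finset I → Subgroup P := fun J => (blockSub Q β J).map Φ with hK
  have hmono : Monotone K := fun J J' h =>
    Subgroup.map_mono fun g hg u hu => hg u fun h' => hu (h h')
  have hd : ∀ (i : I) (J : Finset I), i ∉ J → ∀ g, g ∈ K {i} → g ∈ K J → g = 1 := by
    rintro i J hi g ⟨h, hh, rfl⟩ ⟨h', hh', he⟩
    obtain rfl := hΦ he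
    have : h' = 1 := by
      funext u
      by_cases hu : β u = i
      · exact hh' u (hu ▸ hi)
      · exact hh u (by simpa using hu)
    rw [this, map_one]
  have h1 := han F K hmono hd univ
  have h2 : ∑ x ∈ F, Real.log #(slice F (K univ) x) ≤ #F * Real.log #F := by
    calc _ ≤ ∑ _x ∈ F, Real.log #F := sum_le_sum fun x hx =>
          Real.log_le_log (slice_card_pos _ hx) (by
            exact_mod_cast card_le_card fun y hy => (mem_slice.1 hy).1)
      _ = _ := by simp
  have h3 : ∀ i : I, (#F : ℝ) / 2 * (-Real.log (δ ^ #(univ.filter fun u => β u = i))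
      - 2 ^ e * Real.log 2) ≤ ∑ x ∈ F, Real.log #(slice F (K {i}) x) := by
    intro i
    set σ' : U → T → Q := fun u c => if β u = i then σ u c else 1 with hσ'
    refine block_bound F (K {i}) (fun c : U → T => Φ fun u => σ' u (c u)) ?_
      (Equiv.piCongrRight fun _ => ι) ?_ e _ (by positivity) ?_ (hex i)
    · intro c
      refine ⟨_, fun u hu => ?_, rfl⟩
      simp only [hσ']
      rw [if_neg (by simpa using hu)]
    · intro c
      rw [← map_inv]
      congr 1
      funext u
      simp only [hσ', Equiv.piCongrRight_apply, Pi.map_apply, Pi.inv_apply, hι]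
      split_ifs <;> simp
    · rintro g ⟨h, -, rfl⟩
      rw [prob_hom Φ hΦ (fun (c : U → T) u => σ' u (c u)), prob_pi]
      calc ∏ u, prob (σ' u) (2 ^ e) (h u) ≤ ∏ u, if β u = i then δ else 1 := by
            refine prod_le_prod (fun u _ => prob_nonneg _ _ _) fun u _ => ?_
            split_ifs with hu
            · have : σ' u = σ u := by funext c; simp [hσ', hu]
              rw [this]
              exact hp u _
            · exact prob_le_one _ _ _
        _ = _ := by rw [prod_ite]; simp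
  have h4 := (sum_le_sum fun i (_ : i ∈ univ) => h3 i).trans (h1.trans h2)
  rw [← mul_sum, sum_sub_distrib] at h4
  simp only [Real.log_pow, sum_neg_distrib, ← sum_mul, sum_const, card_univ, nsmul_eq_mul] at h4
  have h5 : ∑ i : I, (#(univ.filter fun u => β u = i) : ℝ) = Fintype.card U := by
    have := card_eq_sum_card_fiberwise (s := (univ : Finset U)) (t := (univ : Finset I)) (f := β)
      (fun _ _ => mem_univ _)
    rw [card_univ] at this
    exact_mod_cast this.symm
  rw [h5] at h4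
  refine le_of_mul_le_mul_left ?_ hFpos
  linarith

end Han

end Pool.Agent.MP_56119d_al

end MrgPart3

-- ======== part 4: formerly Pool.Agent.MP_56119d_al.Main
section MrgPart4

/-! Assembly of the super-exponential lower bound. -/

namespace Pool.Agent.MP_56119d_al

open Finset

lemma exits_le_boundary {G : Type*} [Group G] (S : Finset G)
    (hgen : Subgroup.closure (S : Set G) = ⊤) (g : G) :
    ∃ D : ℕ, ∀ F : Finset G, exits F g ≤ D * #(boundary S F) := by
  classical
  have hg : g ∈ Subgroup.closure (S : Set G) := hgen ▸ Subgroup.mem_top g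
  induction hg using Subgroup.closure_induction with
  | mem s hs =>
    refine ⟨1, fun F => ?_⟩
    rw [one_mul]
    unfold exits boundary
    refine card_le_card fun x hx => ?_
    simp only [mem_filter] at hx ⊢
    exact ⟨hx.1, s, hs, hx.2⟩
  | one => exact ⟨0, fun F => by simp [exits_one]⟩
  | mul g h _ _ hg hh =>
    obtain ⟨D, hD⟩ := hg
    obtain ⟨E, hE⟩ := hh
    exact ⟨D + E, fun F => (exits_mul F g h).trans (by rw [add_mul]; exact add_le_add (hD F) (hE F))⟩
  | inv g _ hg =>
    obtain ⟨D, hD⟩ := hg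
    exact ⟨D, fun F => by rw [exits_inv]; exact hD F⟩

lemma exits_map {P : Type*} [Group P] (H : Subgroup P) (F : Finset H) (g : H) :
    exits (F.map (Function.Embedding.subtype _)) (g : P) = exits F g := by
  classical
  unfold exits
  symm
  refine card_bij (fun x _ => (x : P)) ?_ ?_ ?_
  · intro x hx
    simp only [mem_filter] at hx ⊢
    refine ⟨mem_map_of_mem _ hx.1, fun h => hx.2 ?_⟩
    obtain ⟨y, hy, e⟩ := mem_map.1 h
    have : y = x * g := Subtype.ext e
    exact this ▸ hy
  · intro x _ y _ h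
    exact Subtype.ext h
  · intro y hy
    simp only [mem_filter] at hy
    obtain ⟨x, hx, rfl⟩ := mem_map.1 hy.1
    refine ⟨x, ?_, rfl⟩
    simp only [mem_filter]
    exact ⟨hx, fun h => hy.2 (mem_map.2 ⟨x * g, h, rfl⟩)⟩

lemma Alt.exits_le {x : Fin 3} {w : ℕ → Fin 3} {φ : Bool} {n : ℕ} {g : PT} (h : Alt x w φ n g)
    (F : Finset PT) (E : ℕ) (ha : exits F genA ≤ E) (hg : ∀ i, exits F (gen i w) ≤ E) :
    exits F g ≤ n * (2 * E) := by
  induction h with
  | nil => simp [exits_one]
  | cons y _ _ ih =>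
    refine (exits_mul _ _ _).trans ?_
    have : exits F (st φ y w) ≤ 2 * E := by
      have := hg y
      unfold st
      split_ifs <;> exact (exits_mul _ _ _).trans (by omega)
    rw [add_mul, one_mul]
    omega

lemma exits_law (F : Finset PT) (g h : PT) (E : ℕ) (hg : exits F g ≤ E) (hh : exits F h ≤ E) :
    exits F (law g h) ≤ 8 * E := by
  have h1 : exits F (g ^ 2) ≤ 2 * E := by rw [sq]; exact (exits_mul _ _ _).trans (by omega)
  have h2 : exits F (h ^ 2) ≤ 2 * E := by rw [sq]; exact (exits_mul _ _ _).trans (by omega)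
  have h3 := exits_mul F (g ^ 2 * h ^ 2 * (g ^ 2)⁻¹) (h ^ 2)⁻¹
  have h4 := exits_mul F (g ^ 2 * h ^ 2) (g ^ 2)⁻¹
  have h5 := exits_mul F (g ^ 2) (h ^ 2)
  rw [exits_inv] at h3 h4
  unfold law
  omega

lemma alt_word {x : Fin 3} (φ : Bool) (w : ℕ → Fin 3) (c : Fin 3 × Fin 3 × Fin 3)
    (h : c.1 ≠ x ∧ c.2.1 ≠ x ∧ c.2.2 ≠ x) : Alt x w φ 3 (word φ w c) :=
  Alt.cons _ h.1 (Alt.cons _ h.2.1 (Alt.cons _ h.2.2 Alt.nil))

lemma good_levels (w : ℕ → Fin 3) (hw : ¬ ∃ N, ∀ n, N ≤ n → w n = w N) :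
    ∃ j : Fin 3, ∀ b : ℕ, ∃ k : ℕ, w k = j ∧ w (k + 1) ≠ w k ∧
      b ≤ #(univ.filter fun i : Fin k => w i = j) := by
  have h1 : ∃ j : Fin 3, ∀ N, ∃ k, N ≤ k ∧ w k = j ∧ w (k + 1) ≠ w k := by
    by_contra hcon
    push Not at hcon
    choose N hN using hcon
    apply hw
    refine ⟨N 0 + N 1 + N 2, fun n hn => ?_⟩
    induction n, hn using Nat.le_induction with
    | base => rfl
    | succ n hn ih =>
      rw [← ih]
      refine hN (w n) n (le_trans ?_ hn) rfl
      generalize w n = j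
      fin_cases j <;> simp <;> omega
  obtain ⟨j, hj⟩ := h1
  refine ⟨j, fun b => ?_⟩
  induction b with
  | zero =>
    obtain ⟨k, -, h⟩ := hj 0
    exact ⟨k, h.1, h.2, Nat.zero_le _⟩
  | succ b ih =>
    obtain ⟨k, hk, -, hb⟩ := ih
    obtain ⟨k', hk', h⟩ := hj (k + 1)
    refine ⟨k', h.1, h.2, ?_⟩
    have hlt : k < k' := hk'
    have hsub : insert (⟨k, hlt⟩ : Fin k')
        ((univ.filter fun i : Fin k => w i = j).map (Fin.castLEEmb hlt.le))
        ⊆ univ.filter fun i : Fin k' => w i = j := by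
      intro i hi
      rw [mem_insert] at hi
      rcases hi with rfl | hi
      · simpa using hk
      · obtain ⟨i, hi, rfl⟩ := mem_map.1 hi
        simpa using hi
    have := card_le_card hsub
    rw [card_insert_of_notMem, card_map] at this
    · omega
    · intro hi
      obtain ⟨i, -, e⟩ := mem_map.1 hi
      have : (i : ℕ) = k := congrArg Fin.val e
      omega

theorem volume_lower (w : ℕ → Fin 3) (hw : ¬ ∃ N, ∀ n, N ≤ n → w n = w N) (L : ℝ) :
    ∃ k : ℕ, ∀ (F : Finset PT) (E : ℕ), F.Nonempty → exits F genA ≤ E →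
      (∀ i, exits F (gen i w) ≤ E) → 192 * 2 ^ k * E ≤ #F → 2 ^ k * L ≤ Real.log #F := by
  classical
  obtain ⟨j, hj⟩ := good_levels w hw
  set x := Fin.rev j with hx
  let W := {c : Fin 3 × Fin 3 × Fin 3 // c.1 ≠ x ∧ c.2.1 ≠ x ∧ c.2.2 ≠ x}
  obtain ⟨y, hy, -⟩ := exists_ne_ne x x
  have : Nonempty W := ⟨⟨(y, y, y), hy, hy, hy⟩⟩
  obtain ⟨e, he⟩ := prob_decay PT (W × W) (Real.exp (-(2 * L + 1))) (Real.exp_pos _)
  obtain ⟨k, hk, hk', hb⟩ := hj e
  refine ⟨k, fun F E hF ha hg hE => ?_⟩
  obtain ⟨form, hform⟩ := lift_block x 3 k w false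
  let σ : (Fin k → Bool) → W × W → PT := fun u c =>
    law (word (form u) (sh k w) c.1.1) (word (form u) (sh k w) c.2.1)
  let β : (Fin k → Bool) → ({i : Fin k // Fin.rev (w i) ≠ x} → Bool) := fun u i => u i.1
  have hk0 : sh k w 0 = j := by simpa [sh] using hk
  have key := volume_bound (phiHom k) (phi_inj k) β σ (Equiv.prodComm _ _)
    (fun u c => law_swap _ _) _ (Real.exp_pos (-(2 * L + 1))) e ?_ F hF ?_
  · refine le_trans ?_ key
    rw [Real.log_exp, neg_neg]
    have h1 : (Fintype.card (Fin k → Bool) : ℝ) = 2 ^ k := by simp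
    have h2 : Fintype.card ({i : Fin k // Fin.rev (w i) ≠ x} → Bool) * 2 ^ e ≤ 2 ^ k := by
      rw [Fintype.card_fun, Fintype.card_bool, ← pow_add]
      refine Nat.pow_le_pow_right (by norm_num) ?_
      rw [Fintype.card_subtype]
      have h3 := Finset.card_filter_add_card_filter_not (s := (univ : Finset (Fin k)))
        (fun i : Fin k => w i = j)
      have h4 : (univ.filter fun i : Fin k => Fin.rev (w i) ≠ x)
          = univ.filter fun i : Fin k => ¬ w i = j := by
        ext i
        simp [hx]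
      rw [card_univ, Fintype.card_fin] at h3
      rw [h4]
      omega
    have h5 : (Fintype.card ({i : Fin k // Fin.rev (w i) ≠ x} → Bool) : ℝ) * 2 ^ e ≤ 2 ^ k := by
      exact_mod_cast h2
    have h6 : Real.log 2 ≤ 1 := by
      have := Real.log_le_sub_one_of_pos (show (0 : ℝ) < 2 by norm_num)
      linarith
    have h7 : 0 ≤ Real.log 2 := Real.log_nonneg (by norm_num)
    have h8 : (Fintype.card ({i : Fin k // Fin.rev (w i) ≠ x} → Bool) : ℝ) * (2 ^ e * Real.log 2)
        ≤ 2 ^ k * 1 := by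
      rw [← mul_assoc]
      exact mul_le_mul h5 h6 h7 (by positivity)
    rw [h1]
    convert_to 2 ^ k * L ≤ (2 ^ k * (2 * L + 1)
      - (Fintype.card ({i : Fin k // Fin.rev (w i) ≠ x} → Bool) : ℝ) * (2 ^ e * Real.log 2)) / 2
    linarith
  · intro u q
    refine he (σ u) ⟨(Classical.arbitrary W, Classical.arbitrary W), law_self _⟩ ?_ _
      Nat.lt_two_pow_self.le q
    refine family_infinite (form u) (sh k w) ?_ _ fun c c' hc hc' => ?_
    · simpa [sh, add_comm] using hk'
    · rw [hk0] at hc hc'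
      exact Subgroup.subset_closure ⟨(⟨c, hc⟩, ⟨c', hc'⟩), rfl⟩
  · intro i c
    let ε : Fin k → Bool := fun l => if h : Fin.rev (w l) ≠ x then i ⟨l, h⟩ else false
    obtain ⟨T, T', hT, hT', e⟩ := hform ε (fun u => word (form u) (sh k w) (c u).1.1)
      (fun u => word (form u) (sh k w) (c u).2.1) (fun u => alt_word _ _ _ (c u).1.2)
      (fun u => alt_word _ _ _ (c u).2.2)
    have hiff : ∀ u, InBlock x w ε u ↔ β u = i := by
      intro u
      constructor
      · intro h
        funext l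
        have := h l.1 l.2
        simp only [ε, dif_pos l.2] at this
        exact this
      · rintro rfl l hl
        simp only [ε, dif_pos hl, β]
    have e' : (phiHom k fun u => if β u = i then σ u (c u) else 1) = law T T' := by
      rw [e]
      show phi k _ = phi k _
      congr 1
      funext u
      simp only [hiff, σ]
    have h1 := exits_law F T T' _ (hT.exits_le F E ha hg) (hT'.exits_le F E ha hg)
    have h2 : 4 * exits F (law T T') ≤ #F := by
      refine le_trans ?_ hE
      calc 4 * exits F (law T T') ≤ 4 * (8 * (2 ^ k * 3 * (2 * E))) := by omega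
        _ = _ := by ring
    rw [← e'] at h2
    convert h2

theorem folner_large (w : ℕ → Fin 3) (hw : ¬ ∃ N, ∀ n, N ≤ n → w n = w N)
    (S : Finset (grigorchuk w)) (hgen : Subgroup.closure (S : Set (grigorchuk w)) = ⊤)
    (C : ℝ) (hC : 0 < C) :
    ∃ n : ℕ, 1 ≤ n ∧ ∀ F : Finset (grigorchuk w), F.Nonempty →
      (#(boundary S F) : ℝ) ≤ (#F : ℝ) / n → C * Real.exp (C * n) < #F := by
  obtain ⟨Da, hDa⟩ := exits_le_boundary S hgen ⟨genA, genA_mem w⟩
  choose Dg hDg using fun i => exits_le_boundary S hgen ⟨gen i w, gen_mem i w⟩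
  set D : ℕ := Da + ∑ i, Dg i + 1 with hD
  obtain ⟨k, hk⟩ := volume_lower w hw (192 * D * C + C)
  have hn : 1 ≤ 192 * 2 ^ k * D := Nat.succ_le_of_lt (by positivity)
  refine ⟨192 * 2 ^ k * D, hn, fun F hF hb => ?_⟩
  have hnpos : (0 : ℝ) < (192 * 2 ^ k * D : ℕ) := by exact_mod_cast hn
  rw [le_div_iff₀ hnpos] at hb
  have hb' : #(boundary S F) * (192 * 2 ^ k * D) ≤ #F := by exact_mod_cast hb
  have h1 := hk (F.map (Function.Embedding.subtype _)) (D * #(boundary S F)) (by simpa using hF)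
    ?_ ?_ ?_
  · rw [card_map] at h1
    have hFpos : (0 : ℝ) < #F := by exact_mod_cast hF.card_pos
    have h2 : C < Real.exp C := by linarith [Real.add_one_le_exp C]
    have h3 : (1 : ℝ) ≤ 2 ^ k := one_le_pow₀ (by norm_num)
    calc C * Real.exp (C * (192 * 2 ^ k * D : ℕ))
        < Real.exp C * Real.exp (C * (192 * 2 ^ k * D : ℕ)) :=
          mul_lt_mul_of_pos_right h2 (Real.exp_pos _)
      _ = Real.exp (C + C * (192 * 2 ^ k * D : ℕ)) := (Real.exp_add _ _).symm
      _ ≤ Real.exp (Real.log #F) := by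
          refine Real.exp_le_exp.2 (le_trans ?_ h1)
          push_cast
          nlinarith
      _ = #F := Real.exp_log hFpos
  · exact (exits_map _ F ⟨genA, genA_mem w⟩).le.trans
      ((hDa F).trans (Nat.mul_le_mul_right _ (by omega)))
  · intro i
    have : Dg i ≤ ∑ i, Dg i := single_le_sum (fun _ _ => Nat.zero_le _) (mem_univ i)
    exact (exits_map _ F ⟨gen i w, gen_mem i w⟩).le.trans
      ((hDg i F).trans (Nat.mul_le_mul_right _ (by omega)))
  · rw [card_map]
    calc _ = #(boundary S F) * (192 * 2 ^ k * D) := by ring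
      _ ≤ _ := hb'

end Pool.Agent.MP_56119d_al

end MrgPart4

-- marker of a merged file
example : 731051 + 248458 = 731051 + 248458 := rfl
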